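import Pool.Agent.Helper16.DIL.Spec

/-!
# Swarm DIL, part C4 (for helper16's swarm)
-/

set_option autoImplicit false

namespace Pool.Agent.Helper72.DIL.C4

open Finset Pool.Agent.Helper16.DIL

theorem main (h1 : S_C1) (h2 : S_C2) (h3 : S_C3) : S_C4 := by
  classical
  intro J _ _ x k N hN hx
  let box : Finset (Fin (k + 1) → ℕ) := Fintype.piFinset fun _ => Icc 1 N
  have hbox : ∀ n, n ∈ box ↔ ∀ i, 1 ≤ n i ∧ n i ≤ N := by
    intro n
    simp only [box, Fintype.mem_piFinset, mem_Icc]
  let T : Finset ((Fin (k + 1) → J) × (Fin (k + 1) → ℕ)) :=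
    ((univ : Finset (Fin (k + 1) → J)) ×ˢ box).filter fun q => Phi x q.1 q.2 = 0
  have hT : {q : (Fin (k + 1) → J) × (Fin (k + 1) → ℕ) | (∀ i, 1 ≤ q.2 i ∧ q.2 i ≤ N) ∧
      Phi x q.1 q.2 = 0} = (T : Set ((Fin (k + 1) → J) × (Fin (k + 1) → ℕ))) := by
    ext q
    simp only [Set.mem_setOf_eq, T, coe_filter, mem_product, mem_univ, true_and, hbox]
  rw [hT, Set.ncard_coe_finset]
  let sn : (Fin (k + 1) → ℕ) → ℕ := fun n => Module.finrank ℚ (Wn n)
  have hs1 : ∀ n, 1 ≤ sn n := by
    intro n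
    rw [Nat.one_le_iff_ne_zero]
    intro h0
    have hbot : Wn n = ⊥ := Submodule.finrank_eq_zero.1 h0
    have hmem : (fun _ => 1 : Fin (k + 1) → ℚ) ∈ Wn n :=
      Submodule.subset_span (Set.mem_insert _ _)
    rw [hbot, Submodule.mem_bot] at hmem
    have := congrFun hmem 0
    simp at this
  have hs2 : ∀ n, sn n ≤ k + 1 := by
    intro n
    refine (Submodule.finrank_le _).trans ?_
    simp
  have hcount : T.card ≤ ∑ n ∈ box, Fintype.card J ^ (k + 2 - sn n) := by
    rw [Finset.card_eq_sum_card_fiberwise (f := fun q => q.2) (t := box) (by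
      intro q hq
      exact (mem_product.1 (mem_filter.1 hq).1).2)]
    refine Finset.sum_le_sum fun n hn => ?_
    have h4 := h2 J x k n hx
    refine le_trans ?_ h4
    have h5 : ({w : Fin (k + 1) → J |
        ∀ p : ℕ, ∑ i, ((x (w i) - x (w (i + 1)) : ℤ) : ℚ) * vp n p i = 0}) =
        ((univ.filter fun w : Fin (k + 1) → J =>
          ∀ p : ℕ, ∑ i, ((x (w i) - x (w (i + 1)) : ℤ) : ℚ) * vp n p i = 0) :
          Set (Fin (k + 1) → J)) := by
      ext w; simp
    rw [h5, Set.ncard_coe_finset]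
    refine Finset.card_le_card_of_injOn (fun q => q.1) ?_ ?_
    · intro q hq
      have hq' := Finset.mem_filter.1 hq
      have hq2 := Finset.mem_filter.1 hq'.1
      have hq3 : q.2 = n := hq'.2
      have := h1 J x k q.1 q.2 (fun i =>
        ((hbox _).1 (mem_product.1 hq2.1).2 i).1) hq2.2
      rw [hq3] at this
      exact Finset.mem_coe.2 (Finset.mem_filter.2 ⟨mem_univ _, this⟩)
    · intro q hq q' hq' heq
      have e1 : q.2 = n := (Finset.mem_filter.1 hq).2
      have e2 : q'.2 = n := (Finset.mem_filter.1 hq').2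
      exact Prod.ext heq (e1.trans e2.symm)
  refine hcount.trans ?_
  rw [← Finset.sum_fiberwise_of_maps_to (s := box) (t := Icc 1 (k + 1)) (g := sn)
    (fun n _ => mem_Icc.2 ⟨hs1 n, hs2 n⟩)]
  have hterm : ∀ s ∈ Icc 1 (k + 1), ∑ n ∈ box with sn n = s, Fintype.card J ^ (k + 2 - sn n) ≤
      (Nat.log 2 N + 1) ^ ((k + 1) * (k + 1)) * (N + Fintype.card J) ^ (k + 2) := by
    intro s hs
    rw [mem_Icc] at hs
    have e1 : ∑ n ∈ box with sn n = s, Fintype.card J ^ (k + 2 - sn n) =
        (box.filter fun n => sn n = s).card * Fintype.card J ^ (k + 2 - s) := by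
      rw [Finset.sum_congr rfl (fun n hn => by rw [(mem_filter.1 hn).2]), Finset.sum_const,
        smul_eq_mul]
    have e2 : (box.filter fun n => sn n = s).card ≤
        (Nat.log 2 N + 1) ^ ((k + 1) * (k + 1)) * N ^ s := by
      have := h3 k N s hN
      have e3 : {n : Fin (k + 1) → ℕ | (∀ i, 1 ≤ n i ∧ n i ≤ N) ∧
          Module.finrank ℚ (Wn n) = s} =
          ((box.filter fun n => sn n = s : Finset (Fin (k + 1) → ℕ)) :
            Set (Fin (k + 1) → ℕ)) := by
        ext n
        simp only [Set.mem_setOf_eq, coe_filter, hbox, sn]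
      rwa [e3, Set.ncard_coe_finset] at this
    rw [e1]
    calc (box.filter fun n => sn n = s).card * Fintype.card J ^ (k + 2 - s)
        ≤ ((Nat.log 2 N + 1) ^ ((k + 1) * (k + 1)) * N ^ s) * Fintype.card J ^ (k + 2 - s) :=
          Nat.mul_le_mul_right _ e2
      _ ≤ ((Nat.log 2 N + 1) ^ ((k + 1) * (k + 1)) * (N + Fintype.card J) ^ s) *
          (N + Fintype.card J) ^ (k + 2 - s) := by
          gcongr <;> omega
      _ = (Nat.log 2 N + 1) ^ ((k + 1) * (k + 1)) * (N + Fintype.card J) ^ (k + 2) := by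
          rw [mul_assoc, ← pow_add]
          congr 2
          omega
  refine (Finset.sum_le_sum hterm).trans ?_
  rw [Finset.sum_const, Nat.card_Icc, smul_eq_mul]
  simp [mul_assoc]

end Pool.Agent.Helper72.DIL.C4
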